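import Pool.Agent.H27.L1.H34.GU.Targets1

/-!
Targets for the board gu: the singular matrices in the adjoint operator (repair of EGU, ADG; see
/team-store/H76_GUR.md).
-/

namespace Pool.Agent.H27.L1.H76.GU

open MeasureTheory Pool.Agent.H27.L1.H34.GM Pool.Agent.H27.L1.H34.GZ Pool.Agent.H27.L1.H34.GU

/-- unipotent integer matrices: identity outside the rows `≥ k` and the columns `< k` -/
def InN {m : ℕ} (k : ℕ) (n : ZM m) : Prop :=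
  ∀ i j : Fin m, ¬ ((j : ℕ) < k ∧ k ≤ (i : ℕ)) → n i j = (1 : ZM m) i j

/-- units which are block lower triangular -/
def InP {m : ℕ} (k : ℕ) (p : ZM m) : Prop :=
  IsUnit p ∧ ∀ i j : Fin m, (i : ℕ) < k → k ≤ (j : ℕ) → p i j = 0

/-- units which are block diagonal -/
def InQ {m : ℕ} (k : ℕ) (q : ZM m) : Prop :=
  IsUnit q ∧ ∀ i j : Fin m, ((i : ℕ) < k ∧ k ≤ (j : ℕ)) ∨ ((j : ℕ) < k ∧ k ≤ (i : ℕ)) → q i j = 0

/-- the left kernel is the standard one -/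
def Ker {m : ℕ} (k : ℕ) (α : ZM m) : Prop :=
  ∀ c : Fin m → ℤ, Matrix.vecMul c α = 0 ↔ c ∈ flg m k

/-- left multiplication of a point by a real matrix -/
noncomputable def lm {m : ℕ} (w : Mat m) (z : V m) : V m := fun i j => (w * mt z) i j

/-! ### absolute convergence -/

/-- two monotone sequences (from `T_IN3` with a very negative constant sequence `y`) -/
def T_MX2 : Prop := ∀ (m : ℕ), 1 ≤ m → ∃ C : ℝ, 0 < C ∧ ∀ a a' : Fin m → ℝ, (∀ i, 0 < a i) →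
  (∀ i, 0 < a' i) → (∀ i j, i ≤ j → a i ≤ 2 ^ m * a j) → (∀ i j, i ≤ j → a' i ≤ 2 ^ m * a' j) →
  1 ≤ ∏ i, a i → ∏ i, a i ≤ Real.exp m → 1 ≤ ∏ i, a' i → ∏ i, a' i ≤ Real.exp m →
    ∏ i, ∏ j, (1 + a i / a' j) ≤ C * skw a * skw a'

/-- the theta series in Siegel coordinates -/
def T_THS : Prop := ∀ (m : ℕ), 1 ≤ m → ∀ Ψ : Mat m → ℂ, Dec m Ψ → ∀ ρ : ℝ, 0 < ρ →
  ∃ C : ℝ, 0 < C ∧ ∀ (g n : Mat m) (a : Fin m → ℝ) (k h n' : Mat m) (a' : Fin m → ℝ) (k' : Mat m),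
  Sgl g n a k → Sgl h n' a' k' → 1 ≤ aN g → aN g < Real.exp 1 → 1 ≤ aN h → aN h < Real.exp 1 →
    ∑' β : ZM m, ENNReal.ofReal ‖Ψ (kk ρ g (cR β) h)‖ ≤
      ENNReal.ofReal (C * ∏ i, ∏ j, (1 + a i / a' j))

/-- the theta series is bounded by the skewness -/
def T_THT : Prop := ∀ (m : ℕ), 1 ≤ m → ∀ Ψ : Mat m → ℂ, Dec m Ψ → ∀ ρ : ℝ, 0 < ρ →
  ∃ C : ℝ, 0 < C ∧ ∀ g h : Mat m, 1 ≤ aN g → aN g < Real.exp 1 → 1 ≤ aN h → aN h < Real.exp 1 →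
    ∑' β : ZM m, ENNReal.ofReal ‖Ψ (kk ρ g (cR β) h)‖ ≤ ENNReal.ofReal C * Tht g * Tht h

/-- a cusp form is small where a gap is large (one application of `T_OSU`) -/
def T_DC1 : Prop := ∀ (m N : ℕ) [NeZero N] (T : ℕ → Finset (ZM m)) (D : Set (V m)),
  SysZ m N T D → ∀ (F : Mat m → VN m N → ℂ) (lam : ℕ → ℂ) (mu : Fin m → ℂ),
  CuspU m N T F lam mu → ∃ C : ℝ, 0 ≤ C ∧ ∀ (b n : Mat m) (a : Fin m → ℝ) (k : Mat m),
  Sgl b n a k → ∀ i j : Fin m, (i : ℕ) + 1 = j → ∀ x : VN m N, ‖F b x‖ ≤ C * (a i / a j)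

/-- cusp forms against the skewness -/
def T_FTH : Prop := ∀ (m N : ℕ) [NeZero N] (T : ℕ → Finset (ZM m)) (D : Set (V m)),
  SysZ m N T D → ∀ (F : Mat m → VN m N → ℂ) (lam : ℕ → ℂ) (mu : Fin m → ℂ),
  CuspU m N T F lam mu →
    ∑ x, ∫⁻ z in D, Tht (mt z) * ENNReal.ofReal ‖F (mt z) x‖ ∂(hm m) < ⊤

/-- absolute convergence of the operator `A_r` on cusp forms -/
def T_AC1 : Prop := ∀ (m N : ℕ) [NeZero N] (T : ℕ → Finset (ZM m)) (D : Set (V m)),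
  SysZ m N T D → ∀ (F : Mat m → VN m N → ℂ) (lam : ℕ → ℂ) (mu : Fin m → ℂ),
  CuspU m N T F lam mu → ∀ Ψ : Mat m → ℂ, Dec m Ψ →
  ∀ (g : Mat m) (r : ℝ) (x : VN m N), g.det ≠ 0 → 0 < r →
    ∫⁻ z in D, ∑' α : ZM m, ENNReal.ofReal ‖Ψ (kk r (mt z) (cR α) g) * F (mt z) (ac N α x)‖
      ∂(hm m) < ⊤

/-! ### the singular matrices -/

/-- algebra of the block groups -/
def T_BLK : Prop := ∀ m k : ℕ, k ≤ m →
  (∃ e : {n : ZM m // InN k n} × {q : ZM m // InQ k q} ≃ {p : ZM m // InP k p},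
    ∀ x, ((e x : {p : ZM m // InP k p}) : ZM m) = (x.1 : ZM m) * (x.2 : ZM m)) ∧
  (∀ n : ZM m, InN k n → IsUnit n) ∧
  (∀ (q : ZM m), InQ k q → ∀ u : V m, ∃ u' : V m,
    cR q * (1 + nk k u) = (1 + nk k u') * cR q) ∧
  (∀ n : ZM m, InN k n ↔ ∃ u : V m, cR n = 1 + nk k u) ∧
  (∀ (u : V m) (w : Mat m), ((1 + nk k u) * w).det = w.det)

/-- orbits of the singular matrices -/
def T_ORB : Prop := ∀ m : ℕ,
  (∀ α : ZM m, α.det = 0 → α ≠ 0 → ∃ k : ℕ, 0 < k ∧ k < m ∧ ∃ γ : ZM m, IsUnit γ ∧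
    Ker k (γ * α)) ∧
  (∀ (k : ℕ) (α : ZM m), Ker k α → (∀ i j : Fin m, (i : ℕ) < k → α i j = 0) ∧
    ∀ n : ZM m, InN k n → n * α = α) ∧
  (∀ (k k' : ℕ) (α : ZM m), k ≤ m → k' ≤ m → ∀ γ : ZM m, IsUnit γ → Ker k α → Ker k' (γ * α) →
    k' = k) ∧
  ∀ (k : ℕ) (α : ZM m), k ≤ m → Ker k α → ∀ γ : ZM m, IsUnit γ → (Ker k (γ * α) ↔ InP k γ)

/-- a weight for the unipotent group -/
def T_KAP : Prop := ∀ m k : ℕ, k ≤ m → ∃ κ : V m → ENNReal, Measurable κ ∧ (∀ z, κ z ≤ 1) ∧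
  ∀ z : V m, (mt z).det ≠ 0 → ∑' n : {n : ZM m // InN k n}, κ (lm (cR n.1) z) = 1

/-- a weight for the block diagonal group, invariant under the unipotent group -/
def T_OMG : Prop := ∀ m k : ℕ, k ≤ m → ∃ ω : V m → ENNReal, Measurable ω ∧
  (∀ (z : V m) (u : V m), (mt z).det ≠ 0 → ω (lm (1 + nk k u) z) = ω z) ∧
  ∀ z : V m, (mt z).det ≠ 0 → (∑' q : {q : ZM m // InQ k q}, ω (lm (cR q.1) z)) ≠ 0 ∧
    (∑' q : {q : ZM m // InQ k q}, ω (lm (cR q.1) z)) ≠ ⊤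

/-- the weights together (from `T_BLK`, `T_KAP`, `T_OMG`) -/
def T_RHO : Prop := ∀ m k : ℕ, k ≤ m → ∃ κ ν : V m → ENNReal, Measurable κ ∧ Measurable ν ∧
  (∀ z, κ z ≤ 1) ∧ (∀ z, ν z ≤ 1) ∧
  (∀ (z : V m) (u : V m), (mt z).det ≠ 0 → ν (lm (1 + nk k u) z) = ν z) ∧
  (∀ z : V m, (mt z).det ≠ 0 → ∑' n : {n : ZM m // InN k n}, κ (lm (cR n.1) z) = 1) ∧
  ∀ z : V m, (mt z).det ≠ 0 →
    ∑' p : {p : ZM m // InP k p}, κ (lm (cR p.1) z) * ν (lm (cR p.1) z) = 1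

/-- the average over the unipotent group may be taken first -/
def T_AVG : Prop := ∀ m k : ℕ, 1 ≤ m → k ≤ m → ∀ κ : V m → ENNReal, Measurable κ →
  (∀ z, κ z ≤ 1) →
  (∀ z : V m, (mt z).det ≠ 0 → ∑' n : {n : ZM m // InN k n}, κ (lm (cR n.1) z) = 1) →
  ∀ H : V m → ℂ, Measurable H →
  (∀ n : ZM m, InN k n → ∀ z : V m, (mt z).det ≠ 0 → H (lm (cR n) z) = H z) →
  IntegrableOn (fun z => ((κ z).toReal : ℂ) * H z) (Shell m) (hm m) →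
  (∀ z : V m, (mt z).det ≠ 0 → ∫ u in Set.Icc (0 : V m) 1, H (lm (1 + nk k u) z) = 0) →
    ∫ z in Shell m, ((κ z).toReal : ℂ) * H z ∂(hm m) = 0

/-- the constant term with the period one -/
def T_PER : Prop := ∀ (m N : ℕ) [NeZero N] (T : ℕ → Finset (ZM m)) (F : Mat m → VN m N → ℂ)
  (lam : ℕ → ℂ) (mu : Fin m → ℂ), CuspU m N T F lam mu → ∀ k : ℕ, 0 < k → k < m →
  ∀ y : VN m N, (∀ n : ZM m, InN k n → ac N n y = y) → ∀ g : Mat m, g.det ≠ 0 →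
    ∫ u in Set.Icc (0 : V m) 1, F ((1 + nk k u) * g) y = 0

open Classical in
/-- unfolding of the matrices with a left kernel of the rank `k` -/
def T_UNK : Prop := ∀ (m : ℕ) (D : Set (V m)), 1 ≤ m → DomZ m D → ∀ k : ℕ, 0 < k → k < m →
  ∀ κ ν : V m → ENNReal, Measurable κ → Measurable ν → (∀ z, κ z ≤ 1) → (∀ z, ν z ≤ 1) →
  (∀ z : V m, (mt z).det ≠ 0 →
    ∑' p : {p : ZM m // InP k p}, κ (lm (cR p.1) z) * ν (lm (cR p.1) z) = 1) →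
  ∀ f : ZM m → V m → ℂ, (∀ α, Measurable (f α)) →
  (∀ γ : ZM m, IsUnit γ → ∀ (α : ZM m) (z : V m), (mt z).det ≠ 0 →
    f (γ * α) (lm (cR γ) z) = f α z) →
  ∫⁻ z in D, ∑' α : ZM m, ENNReal.ofReal ‖f α z‖ ∂(hm m) < ⊤ →
    (∀ α : ZM m, Ker k α →
      IntegrableOn (fun z => ((κ z).toReal : ℂ) * (((ν z).toReal : ℂ) * f α z)) (Shell m) (hm m)) ∧
    ∫ z in D, ∑' α : ZM m, (if ∃ γ : ZM m, IsUnit γ ∧ Ker k (γ * α) then f α z else 0) ∂(hm m) =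
      ∑' α : {α : ZM m // Ker k α}, ∫ z in Shell m,
        ((κ z).toReal : ℂ) * (((ν z).toReal : ℂ) * f α.1 z) ∂(hm m)

open Classical in
/-- the singular part vanishes on cusp forms -/
def T_SGV : Prop := ∀ (m N : ℕ) [NeZero N] (T : ℕ → Finset (ZM m)) (D : Set (V m)),
  SysZ m N T D → ∀ (F : Mat m → VN m N → ℂ) (lam : ℕ → ℂ) (mu : Fin m → ℂ),
  CuspU m N T F lam mu → ∀ Ψ : Mat m → ℂ, Dec m Ψ →
  ∀ (g : Mat m) (r : ℝ) (x : VN m N), g.det ≠ 0 → 0 < r →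
    ∫ z in D, ∑' α : ZM m, (if α.det = 0 then
      Ψ (kk r (mt z) (cR α) g) * F (mt z) (ac N α x) else 0) ∂(hm m) = 0

open Classical in
/-- the part of the non singular matrices (copy of EGD) -/
def T_EGN : Prop := ∀ (m N : ℕ) [NeZero N] (T : ℕ → Finset (ZM m)) (D : Set (V m)),
  SysZ m N T D → ∀ (F : Mat m → VN m N → ℂ) (lam : ℕ → ℂ) (mu : Fin m → ℂ),
  EigU m N T F lam mu → ∀ Ψ : Mat m → ℂ, Dec m Ψ →
  ∀ (g : Mat m) (r : ℝ) (x : VN m N), g.det ≠ 0 → 0 < r →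
    ∫ z in D, ∑' α : ZM m, (if α.det = 0 then 0 else
      Ψ (kk r (mt z) (cR α) g) * F (mt z) (ac N α x)) ∂(hm m) = thF 1 Ψ mu lam r * F g x

/-- cusp forms are eigenfunctions of the operators with decaying kernels -/
def T_EGC : Prop := ∀ (m N : ℕ) [NeZero N] (T : ℕ → Finset (ZM m)) (D : Set (V m)),
  SysZ m N T D → ∀ (F : Mat m → VN m N → ℂ) (lam : ℕ → ℂ) (mu : Fin m → ℂ),
  CuspU m N T F lam mu → ∀ Ψ : Mat m → ℂ, Dec m Ψ →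
  ∀ (g : Mat m) (r : ℝ) (x : VN m N), g.det ≠ 0 → 0 < r →
    opAu N Ψ r D F g x = thF 1 Ψ mu lam r * F g x

open Classical in
/-- the operators are adjoint, for a cusp form and its Fourier transform -/
def T_ADC : Prop := ∀ (m N : ℕ) [NeZero N] (T : ℕ → Finset (ZM m)) (D : Set (V m)),
  SysZ m N T D → ∀ (H : VN m N → ZM m) (xv : VN m N → VN m N), Frk m N H xv →
  ∀ (F : Mat m → VN m N → ℂ) (lam : ℕ → ℂ) (mu : Fin m → ℂ), CuspU m N T F lam mu →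
  ∀ Ψ : Mat m → ℂ, Dec m Ψ → ∀ ρ : ℝ, 0 < ρ →
    ∫ g in D, ∫ h in D, ∑ v : VN m N, (if Pr v then (∑ y, psn N (dt v y) * F (mt h) y) *
      ∑' φ : ZM m, (starRingEnd ℂ) (Ψ (kk ρ (mt g) (cR φ) (cR (H v) * mt h))) *
        (starRingEnd ℂ) (F (mt g) (ac N φ (xv v))) else 0) ∂(hm m) ∂(hm m) =
    ∫ h in D, ∑ v : VN m N, (if Pr v then (∑ y, psn N (dt v y) * F (mt h) y) *
      (starRingEnd ℂ) (opAu N Ψ ρ D F (cR (H v) * mt h) (xv v)) else 0) ∂(hm m)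

end Pool.Agent.H27.L1.H76.GU
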